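import Mathlib
import Pool.Agent.L5helper98.CG.Defs

/-!
# Kahane's inequality: preliminaries
-/

set_option autoImplicit false

open MeasureTheory ProbabilityTheory Filter Topology Set

namespace Pool.Agent.L5helper1.CG

noncomputable section

variable {N : ℕ}

/-- functions of at most exponential growth, uniformly in the parameter -/
def Gr (f : ℝ → (Fin N → ℝ) → ℝ) : Prop :=
  ∃ K : ℝ, 0 ≤ K ∧ ∀ θ x, |f θ x| ≤ K * Real.exp (K * ∑ i, |x i|)

lemma S_nonneg (x : Fin N → ℝ) : 0 ≤ ∑ i, |x i| := Finset.sum_nonneg fun _ _ => abs_nonneg _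

lemma Gr_of {f : ℝ → (Fin N → ℝ) → ℝ} {a b : ℝ} (ha : 0 ≤ a) (hb : 0 ≤ b)
    (h : ∀ θ x, |f θ x| ≤ a * Real.exp (b * ∑ i, |x i|)) : Gr f := by
  refine ⟨a + b, by positivity, fun θ x => (h θ x).trans ?_⟩
  have hS := S_nonneg x
  have h1 : Real.exp (b * ∑ i, |x i|) ≤ Real.exp ((a + b) * ∑ i, |x i|) := by
    apply Real.exp_le_exp.mpr
    nlinarith
  have h2 := (Real.exp_pos (b * ∑ i, |x i|)).le
  have h3 := (Real.exp_pos ((a + b) * ∑ i, |x i|)).le
  nlinarith

lemma Gr.mul {f g : ℝ → (Fin N → ℝ) → ℝ} (hf : Gr f) (hg : Gr g) :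
    Gr (fun θ x => f θ x * g θ x) := by
  obtain ⟨K, hK, h⟩ := hf
  obtain ⟨L, hL, h'⟩ := hg
  refine Gr_of (a := K * L) (b := K + L) (by positivity) (by positivity) fun θ x => ?_
  rw [abs_mul, add_mul, Real.exp_add]
  calc |f θ x| * |g θ x| ≤ (K * Real.exp (K * ∑ i, |x i|)) * (L * Real.exp (L * ∑ i, |x i|)) :=
        mul_le_mul (h θ x) (h' θ x) (abs_nonneg _) (by positivity)
    _ = _ := by ring

lemma Gr.add {f g : ℝ → (Fin N → ℝ) → ℝ} (hf : Gr f) (hg : Gr g) :
    Gr (fun θ x => f θ x + g θ x) := by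
  obtain ⟨K, hK, h⟩ := hf
  obtain ⟨L, hL, h'⟩ := hg
  refine Gr_of (a := K + L) (b := K + L) (by positivity) (by positivity) fun θ x => ?_
  have hS := S_nonneg x
  refine (abs_add_le _ _).trans ((add_le_add (h θ x) (h' θ x)).trans ?_)
  have h1 : Real.exp (K * ∑ i, |x i|) ≤ Real.exp ((K + L) * ∑ i, |x i|) := by
    apply Real.exp_le_exp.mpr; nlinarith
  have h2 : Real.exp (L * ∑ i, |x i|) ≤ Real.exp ((K + L) * ∑ i, |x i|) := by
    apply Real.exp_le_exp.mpr; nlinarith
  nlinarith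

lemma Gr_bdd {c : ℝ → ℝ} {B : ℝ} (h : ∀ θ, |c θ| ≤ B) : Gr (fun θ (_ : Fin N → ℝ) => c θ) := by
  have hB : 0 ≤ B := (abs_nonneg _).trans (h 0)
  refine Gr_of (a := B) (b := 0) hB le_rfl fun θ x => ?_
  rw [zero_mul, Real.exp_zero, mul_one]
  exact h θ

lemma Gr_const (c : ℝ) : Gr (fun _ (_ : Fin N → ℝ) => c) := Gr_bdd (B := |c|) fun _ => le_rfl

lemma Gr_sum {ι : Type} (s : Finset ι) {f : ι → ℝ → (Fin N → ℝ) → ℝ} (h : ∀ i ∈ s, Gr (f i)) :
    Gr (fun θ x => ∑ i ∈ s, f i θ x) := by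
  classical
  induction s using Finset.induction_on with
  | empty => simpa using Gr_const 0
  | insert a s ha ih =>
    simp only [Finset.sum_insert ha]
    exact (h a (Finset.mem_insert_self a s)).add
      (ih fun i hi => h i (Finset.mem_insert_of_mem hi))

lemma Gr_coord (k : Fin N) : Gr (fun _ (x : Fin N → ℝ) => x k) := by
  refine Gr_of (a := 1) (b := 1) zero_le_one zero_le_one fun θ x => ?_
  rw [one_mul, one_mul]
  have h1 : |x k| ≤ ∑ i, |x i| :=
    Finset.single_le_sum (f := fun i => |x i|) (fun _ _ => abs_nonneg _) (Finset.mem_univ k)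
  have h2 := Real.add_one_le_exp (∑ i, |x i|)
  linarith

lemma norm_le_sum_single (L : (Fin N → ℝ) →L[ℝ] ℝ) :
    ‖L‖ ≤ ∑ k, |L (Pi.single k 1)| := by
  refine L.opNorm_le_bound (Finset.sum_nonneg fun _ _ => abs_nonneg _) fun x => ?_
  have h1 : L x = ∑ k, x k * L (Pi.single k 1) := by
    have := (L : (Fin N → ℝ) →ₗ[ℝ] ℝ).pi_apply_eq_sum_univ x
    simp only [smul_eq_mul, ContinuousLinearMap.coe_coe] at this
    rw [this]
    refine Finset.sum_congr rfl fun k _ => ?_
    congr 2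
    funext j
    by_cases h : j = k
    · subst h; simp
    · simp [Pi.single_apply, h, Ne.symm h]
  rw [h1, Finset.sum_mul]
  refine (Finset.abs_sum_le_sum_abs _ _).trans (Finset.sum_le_sum fun k _ => ?_)
  rw [abs_mul, mul_comm]
  exact mul_le_mul_of_nonneg_left (norm_le_pi_norm x k) (abs_nonneg _)

/-- exponential moments -/
lemma integrable_exp_sum (ν : Measure (EuclideanSpace ℝ (Fin N))) [IsGaussian ν] (K : ℝ)
    (hK : 0 ≤ K) : Integrable (fun x : EuclideanSpace ℝ (Fin N) => Real.exp (K * ∑ i, |x i|)) ν := by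
  obtain ⟨c, hc, hi⟩ := IsGaussian.exists_integrable_exp_sq ν
  refine (hi.const_mul (Real.exp ((K * N) ^ 2 / (4 * c)))).mono ?_ ?_
  · apply Continuous.aestronglyMeasurable
    fun_prop
  · refine Eventually.of_forall fun x => ?_
    rw [Real.norm_eq_abs, Real.norm_eq_abs, abs_of_pos (Real.exp_pos _), abs_mul,
      abs_of_pos (Real.exp_pos _), abs_of_pos (Real.exp_pos _), ← Real.exp_add]
    apply Real.exp_le_exp.mpr
    have h1 : ∑ i, |x i| ≤ N * ‖x‖ := by
      have h2 : ∀ i ∈ (Finset.univ : Finset (Fin N)), |x i| ≤ ‖x‖ := fun i _ =>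
        PiLp.norm_apply_le x i
      refine (Finset.sum_le_card_nsmul _ _ _ h2).trans ?_
      simp
    have h3 : K * ∑ i, |x i| ≤ (K * N) * ‖x‖ := by
      rw [mul_assoc]; exact mul_le_mul_of_nonneg_left h1 hK
    refine h3.trans ?_
    have h4 : 0 ≤ (2 * c * ‖x‖ - K * N) ^ 2 / (4 * c) := by positivity
    have h5 : (2 * c * ‖x‖ - K * N) ^ 2 / (4 * c)
        = c * ‖x‖ ^ 2 - (K * N) * ‖x‖ + (K * N) ^ 2 / (4 * c) := by
      field_simp; ring
    linarith

lemma Gr.integrable {f : ℝ → (Fin N → ℝ) → ℝ} (hf : Gr f)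
    (ν : Measure (EuclideanSpace ℝ (Fin N))) [IsGaussian ν] (θ : ℝ) (hc : Continuous (f θ)) :
    Integrable (fun x : EuclideanSpace ℝ (Fin N) => f θ (fun k => x k)) ν := by
  obtain ⟨K, hK, h⟩ := hf
  refine ((integrable_exp_sum ν K hK).const_mul K).mono ?_ ?_
  · apply Continuous.aestronglyMeasurable
    exact hc.comp (by fun_prop)
  · refine Eventually.of_forall fun x => ?_
    refine (h θ _).trans (le_abs_self _)

/-! ### the block matrix -/

variable {n : ℕ}

/-- the left half -/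
def lf (i : Fin n) : Fin (n + n) := Fin.castAdd n i

/-- the right half -/
def rt (i : Fin n) : Fin (n + n) := Fin.natAdd n i

lemma sum_lr {M : Type*} [AddCommMonoid M] (f : Fin (n + n) → M) :
    ∑ k, f k = ∑ i, f (lf i) + ∑ i, f (rt i) := Fin.sum_univ_add f

lemma lf_inj : Function.Injective (lf : Fin n → Fin (n + n)) := Fin.castAdd_injective n n

lemma rt_inj : Function.Injective (rt : Fin n → Fin (n + n)) := Fin.natAdd_injective n n

lemma lf_ne_rt (i j : Fin n) : lf i ≠ rt j := by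
  intro h
  have h1 := congrArg Fin.val h
  simp only [lf, rt, Fin.val_castAdd, Fin.val_natAdd] at h1
  omega

lemma cases_lr (P : Fin (n + n) → Prop) (h1 : ∀ i, P (lf i)) (h2 : ∀ i, P (rt i)) (a) : P a :=
  Fin.addCases h1 h2 a

/-- glue -/
def gl {M : Type*} (u v : Fin n → M) : Fin (n + n) → M :=
  fun a => Fin.addCases (motive := fun _ => M) u v a

lemma gl_lf {M : Type*} (u v : Fin n → M) (i : Fin n) : gl u v (lf i) = u i := by
  simp only [gl, lf, Fin.addCases_left]

lemma gl_rt {M : Type*} (u v : Fin n → M) (i : Fin n) : gl u v (rt i) = v i := by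
  simp only [gl, rt, Fin.addCases_right]

/-- the block covariance -/
def blk (C C' : Matrix (Fin n) (Fin n) ℝ) : Matrix (Fin (n + n)) (Fin (n + n)) ℝ :=
  gl (fun i => gl (fun j => C i j) (fun _ => 0)) (fun i => gl (fun _ => 0) (fun j => C' i j))

variable (C C' : Matrix (Fin n) (Fin n) ℝ)

lemma blk_ll (i j : Fin n) : blk C C' (lf i) (lf j) = C i j := by
  rw [blk, gl_lf, gl_lf]

lemma blk_lr (i j : Fin n) : blk C C' (lf i) (rt j) = 0 := by
  rw [blk, gl_lf, gl_rt]

lemma blk_rl (i j : Fin n) : blk C C' (rt i) (lf j) = 0 := by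
  rw [blk, gl_rt, gl_lf]

lemma blk_rr (i j : Fin n) : blk C C' (rt i) (rt j) = C' i j := by
  rw [blk, gl_rt, gl_rt]

lemma blk_posSemidef (hC : C.PosSemidef) (hC' : C'.PosSemidef) : (blk C C').PosSemidef := by
  rw [Matrix.posSemidef_iff_dotProduct_mulVec] at hC hC' ⊢
  refine ⟨?_, fun x => ?_⟩
  · have h1 : ∀ i j, C j i = C i j := fun i j => by
      have := congrFun (congrFun hC.1 i) j
      simpa [Matrix.conjTranspose_apply] using this
    have h2 : ∀ i j, C' j i = C' i j := fun i j => by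
      have := congrFun (congrFun hC'.1 i) j
      simpa [Matrix.conjTranspose_apply] using this
    have key : ∀ a b, blk C C' b a = blk C C' a b := by
      refine cases_lr (fun a => ∀ b, blk C C' b a = blk C C' a b) (fun i => ?_) (fun i => ?_)
      · refine cases_lr (fun b => blk C C' b (lf i) = blk C C' (lf i) b) (fun j => ?_) (fun j => ?_)
        · rw [blk_ll, blk_ll]; exact h1 i j
        · rw [blk_rl, blk_lr]
      · refine cases_lr (fun b => blk C C' b (rt i) = blk C C' (rt i) b) (fun j => ?_) (fun j => ?_)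
        · rw [blk_lr, blk_rl]
        · rw [blk_rr, blk_rr]; exact h2 i j
    refine Matrix.ext fun a b => ?_
    rw [Matrix.conjTranspose_apply, star_trivial]
    exact key a b
  · have h1 := hC.2 (fun i => x (lf i))
    have h2 := hC'.2 (fun i => x (rt i))
    simp only [dotProduct, Matrix.mulVec, star_trivial, Pi.star_apply] at h1 h2 ⊢
    rw [sum_lr]
    simp only [sum_lr, blk_ll, blk_lr, blk_rl, blk_rr, zero_mul, Finset.sum_const_zero,
      add_zero, zero_add]
    exact add_nonneg h1 h2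

end

end Pool.Agent.L5helper1.CG
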