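import Mathlib
import Pool.Agent.L5helper98.CG.Defs
import Pool.Agent.L5helper1.CG.Kah0

/-!
# Kahane's inequality
-/

set_option autoImplicit false

open MeasureTheory ProbabilityTheory Filter Topology Set

namespace Pool.Agent.L5helper1.CG

open Pool.Agent.L5helper98.CG

noncomputable section

variable {n : ℕ}

section defs

variable (C C' : Matrix (Fin n) (Fin n) ℝ) (p : Fin n → ℝ) (q : ℝ)

/-- the exponents -/
def ww (i : Fin n) (θ : ℝ) (x : Fin (n + n) → ℝ) : ℝ :=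
  Real.cos θ * x (lf i) + Real.sin θ * x (rt i)
    - (Real.cos θ ^ 2 * C i i + Real.sin θ ^ 2 * C' i i) / 2

/-- the terms -/
def ee (i : Fin n) (θ : ℝ) (x : Fin (n + n) → ℝ) : ℝ := p i * Real.exp (ww C C' i θ x)

/-- the sum -/
def ZZ (θ : ℝ) (x : Fin (n + n) → ℝ) : ℝ := ∑ i, ee C C' p i θ x

/-- the first derivatives -/
def GG (i : Fin n) (θ : ℝ) (x : Fin (n + n) → ℝ) : ℝ :=
  q * ZZ C C' p θ x ^ (q - 1) * ee C C' p i θ x

/-- the off diagonal part of the second derivatives -/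
def RR (i j : Fin n) (θ : ℝ) (x : Fin (n + n) → ℝ) : ℝ :=
  q * (q - 1) * ZZ C C' p θ x ^ (q - 2) * ee C C' p i θ x * ee C C' p j θ x

/-- the derivative of the exponents -/
def dw (i : Fin n) (θ : ℝ) (x : Fin (n + n) → ℝ) : ℝ :=
  -Real.sin θ * x (lf i) + Real.cos θ * x (rt i)
    - Real.sin θ * Real.cos θ * (C' i i - C i i)

end defs

variable {C C' : Matrix (Fin n) (Fin n) ℝ} {p : Fin n → ℝ} {q : ℝ}

lemma ee_nonneg (hp : ∀ i, 0 ≤ p i) (i : Fin n) (θ : ℝ) (x : Fin (n + n) → ℝ) :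
    0 ≤ ee C C' p i θ x := mul_nonneg (hp i) (Real.exp_pos _).le

lemma ZZ_pos (hp : ∀ i, 0 ≤ p i) (hp' : ∃ i, 0 < p i) (θ : ℝ) (x : Fin (n + n) → ℝ) :
    0 < ZZ C C' p θ x := by
  obtain ⟨i, hi⟩ := hp'
  exact Finset.sum_pos' (fun j _ => ee_nonneg hp j θ x)
    ⟨i, Finset.mem_univ i, mul_pos hi (Real.exp_pos _)⟩

/-- the constant -/
def AA (C C' : Matrix (Fin n) (Fin n) ℝ) : ℝ := ∑ i, (|C i i| + |C' i i|)

lemma AA_nonneg : 0 ≤ AA C C' := Finset.sum_nonneg fun _ _ => by positivity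

lemma abs_ww_le (i : Fin n) (θ : ℝ) (x : Fin (n + n) → ℝ) :
    |ww C C' i θ x| ≤ AA C C' + ∑ k, |x k| := by
  have hc := Real.abs_cos_le_one θ
  have hs := Real.abs_sin_le_one θ
  have hc2 : Real.cos θ ^ 2 ≤ 1 := Real.cos_sq_le_one θ
  have hs2 : Real.sin θ ^ 2 ≤ 1 := Real.sin_sq_le_one θ
  have h1 : |C i i| + |C' i i| ≤ AA C C' :=
    Finset.single_le_sum (f := fun i => |C i i| + |C' i i|) (fun _ _ => by positivity)
      (Finset.mem_univ i)
  have h2 : |x (lf i)| + |x (rt i)| ≤ ∑ k, |x k| := by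
    rw [sum_lr]
    exact add_le_add
      (Finset.single_le_sum (f := fun i => |x (lf i)|) (fun _ _ => abs_nonneg _)
        (Finset.mem_univ i))
      (Finset.single_le_sum (f := fun i => |x (rt i)|) (fun _ _ => abs_nonneg _)
        (Finset.mem_univ i))
  have h3 : |Real.cos θ * x (lf i)| ≤ |x (lf i)| := by
    rw [abs_mul]; exact mul_le_of_le_one_left (abs_nonneg _) hc
  have h4 : |Real.sin θ * x (rt i)| ≤ |x (rt i)| := by
    rw [abs_mul]; exact mul_le_of_le_one_left (abs_nonneg _) hs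
  have h5 : |(Real.cos θ ^ 2 * C i i + Real.sin θ ^ 2 * C' i i) / 2| ≤ |C i i| + |C' i i| := by
    rw [abs_div, abs_two]
    have h6 : |Real.cos θ ^ 2 * C i i| ≤ |C i i| := by
      rw [abs_mul, abs_of_nonneg (sq_nonneg _)]; exact mul_le_of_le_one_left (abs_nonneg _) hc2
    have h7 : |Real.sin θ ^ 2 * C' i i| ≤ |C' i i| := by
      rw [abs_mul, abs_of_nonneg (sq_nonneg _)]; exact mul_le_of_le_one_left (abs_nonneg _) hs2
    have h8 := abs_add_le (Real.cos θ ^ 2 * C i i) (Real.sin θ ^ 2 * C' i i)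
    have h9 := abs_nonneg (Real.cos θ ^ 2 * C i i + Real.sin θ ^ 2 * C' i i)
    linarith
  rw [ww]
  have h10 := abs_sub (Real.cos θ * x (lf i) + Real.sin θ * x (rt i))
    ((Real.cos θ ^ 2 * C i i + Real.sin θ ^ 2 * C' i i) / 2)
  have h11 := abs_add_le (Real.cos θ * x (lf i)) (Real.sin θ * x (rt i))
  linarith

lemma Gr_ee (hp : ∀ i, 0 ≤ p i) (i : Fin n) : Gr (ee C C' p i) := by
  refine Gr_of (a := p i * Real.exp (AA C C')) (b := 1)
    (mul_nonneg (hp i) (Real.exp_pos _).le) zero_le_one fun θ x => ?_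
  rw [abs_of_nonneg (ee_nonneg hp i θ x), ee, mul_assoc, ← Real.exp_add, one_mul]
  refine mul_le_mul_of_nonneg_left (Real.exp_le_exp.mpr ?_) (hp i)
  exact (le_abs_self _).trans (abs_ww_le i θ x)

lemma Gr_ZZ_rpow (hp : ∀ i, 0 ≤ p i) (hp' : ∃ i, 0 < p i) (s : ℝ) :
    Gr (fun θ x => ZZ C C' p θ x ^ s) := by
  obtain ⟨i₀, hi₀⟩ := hp'
  have hP : 0 < ∑ i, p i := Finset.sum_pos' (fun j _ => hp j) ⟨i₀, Finset.mem_univ _, hi₀⟩
  have hpos := fun θ x => ZZ_pos (C := C) (C' := C') hp ⟨i₀, hi₀⟩ θ x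
  rcases le_total 0 s with hs | hs
  · refine Gr_of (a := (∑ i, p i) ^ s * Real.exp (s * AA C C')) (b := s) (by positivity) hs
      fun θ x => ?_
    rw [abs_of_nonneg (Real.rpow_nonneg (hpos θ x).le s)]
    have h1 : ZZ C C' p θ x ≤ (∑ i, p i) * Real.exp (AA C C' + ∑ k, |x k|) := by
      rw [ZZ, Finset.sum_mul]
      refine Finset.sum_le_sum fun i _ => mul_le_mul_of_nonneg_left (Real.exp_le_exp.mpr ?_) (hp i)
      exact (le_abs_self _).trans (abs_ww_le i θ x)
    refine (Real.rpow_le_rpow (hpos θ x).le h1 hs).trans (le_of_eq ?_)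
    rw [Real.mul_rpow hP.le (Real.exp_pos _).le, ← Real.exp_mul, mul_assoc, ← Real.exp_add]
    congr 2
    ring
  · refine Gr_of (a := p i₀ ^ s * Real.exp (-s * AA C C')) (b := -s) (by positivity)
      (by linarith) fun θ x => ?_
    rw [abs_of_nonneg (Real.rpow_nonneg (hpos θ x).le s)]
    have h1 : p i₀ * Real.exp (-(AA C C' + ∑ k, |x k|)) ≤ ZZ C C' p θ x := by
      refine le_trans ?_ (Finset.single_le_sum (f := fun i => ee C C' p i θ x)
        (fun j _ => ee_nonneg hp j θ x) (Finset.mem_univ i₀))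
      refine mul_le_mul_of_nonneg_left (Real.exp_le_exp.mpr ?_) (hp i₀)
      have := (abs_le.mp (abs_ww_le (C := C) (C' := C') i₀ θ x)).1
      linarith
    refine (Real.rpow_le_rpow_of_nonpos (by positivity) h1 hs).trans (le_of_eq ?_)
    rw [Real.mul_rpow hi₀.le (Real.exp_pos _).le, ← Real.exp_mul, mul_assoc, ← Real.exp_add]
    congr 2
    ring

lemma Gr_GG (hp : ∀ i, 0 ≤ p i) (hp' : ∃ i, 0 < p i) (i : Fin n) : Gr (GG C C' p q i) :=
  ((Gr_const q).mul (Gr_ZZ_rpow hp hp' (q - 1))).mul (Gr_ee hp i)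

lemma Gr_RR (hp : ∀ i, 0 ≤ p i) (hp' : ∃ i, 0 < p i) (i j : Fin n) : Gr (RR C C' p q i j) :=
  (((Gr_const (q * (q - 1))).mul (Gr_ZZ_rpow hp hp' (q - 2))).mul (Gr_ee hp i)).mul (Gr_ee hp j)

lemma Gr_cos : Gr (fun θ (_ : Fin (n + n) → ℝ) => Real.cos θ) := Gr_bdd (B := 1) Real.abs_cos_le_one

lemma Gr_sin : Gr (fun θ (_ : Fin (n + n) → ℝ) => Real.sin θ) := Gr_bdd (B := 1) Real.abs_sin_le_one

lemma Gr_dw (i : Fin n) : Gr (dw C C' i) := by
  have h := (((Gr_const (-1)).mul Gr_sin).mul (Gr_coord (lf i))).add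
    ((Gr_cos.mul (Gr_coord (rt i))).add
      (((Gr_const (-1)).mul (Gr_sin.mul Gr_cos)).mul (Gr_const (C' i i - C i i))))
  obtain ⟨K, hK, h'⟩ := h
  refine ⟨K, hK, fun θ x => ?_⟩
  refine le_trans (le_of_eq ?_) (h' θ x)
  congr 1
  rw [dw]
  ring

/-! ### smoothness -/

lemma contDiff_ww (i : Fin n) (θ : ℝ) : ContDiff ℝ 1 (ww C C' i θ) := by
  unfold ww
  fun_prop

lemma contDiff_ee (i : Fin n) (θ : ℝ) : ContDiff ℝ 1 (ee C C' p i θ) :=
  contDiff_const.mul (contDiff_ww i θ).exp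

lemma contDiff_ZZ (θ : ℝ) : ContDiff ℝ 1 (ZZ C C' p θ) := by
  unfold ZZ
  exact ContDiff.sum fun i _ => contDiff_ee i θ

lemma contDiff_ZZ_rpow (hp : ∀ i, 0 ≤ p i) (hp' : ∃ i, 0 < p i) (s θ : ℝ) :
    ContDiff ℝ 1 (fun x => ZZ C C' p θ x ^ s) :=
  (contDiff_ZZ θ).rpow_const_of_ne fun x => (ZZ_pos hp hp' θ x).ne'

lemma contDiff_GG (hp : ∀ i, 0 ≤ p i) (hp' : ∃ i, 0 < p i) (i : Fin n) (θ : ℝ) :
    ContDiff ℝ 1 (GG C C' p q i θ) :=
  (contDiff_const.mul (contDiff_ZZ_rpow hp hp' (q - 1) θ)).mul (contDiff_ee i θ)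

lemma contDiff_RR (hp : ∀ i, 0 ≤ p i) (hp' : ∃ i, 0 < p i) (i j : Fin n) (θ : ℝ) :
    ContDiff ℝ 1 (RR C C' p q i j θ) :=
  ((contDiff_const.mul (contDiff_ZZ_rpow hp hp' (q - 2) θ)).mul (contDiff_ee i θ)).mul
    (contDiff_ee j θ)

lemma contDiff_dw (i : Fin n) (θ : ℝ) : ContDiff ℝ 1 (dw C C' i θ) := by
  unfold dw
  fun_prop

/-- the linear parts -/
def ll (i : Fin n) (θ : ℝ) : (Fin (n + n) → ℝ) →L[ℝ] ℝ :=
  Real.cos θ • ContinuousLinearMap.proj (lf i) + Real.sin θ • ContinuousLinearMap.proj (rt i)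

lemma ll_lf (i m : Fin n) (θ : ℝ) :
    ll i θ (Pi.single (lf m) 1) = Real.cos θ * if i = m then 1 else 0 := by
  simp only [ll, ContinuousLinearMap.add_apply, ContinuousLinearMap.smul_apply,
    ContinuousLinearMap.proj_apply, smul_eq_mul, Pi.single_apply]
  rw [if_neg (lf_ne_rt m i).symm, mul_zero, add_zero]
  simp only [lf_inj.eq_iff]

lemma ll_rt (i m : Fin n) (θ : ℝ) :
    ll i θ (Pi.single (rt m) 1) = Real.sin θ * if i = m then 1 else 0 := by
  simp only [ll, ContinuousLinearMap.add_apply, ContinuousLinearMap.smul_apply,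
    ContinuousLinearMap.proj_apply, smul_eq_mul, Pi.single_apply]
  rw [if_neg (lf_ne_rt i m), mul_zero, zero_add]
  simp only [rt_inj.eq_iff]

lemma hasFDerivAt_ww (i : Fin n) (θ : ℝ) (x : Fin (n + n) → ℝ) :
    HasFDerivAt (ww C C' i θ) (ll i θ) x := by
  have h1 : HasFDerivAt (fun x : Fin (n + n) → ℝ => x (lf i))
      (ContinuousLinearMap.proj (R := ℝ) (φ := fun _ => ℝ) (lf i)) x :=
    (ContinuousLinearMap.proj (R := ℝ) (φ := fun _ : Fin (n + n) => ℝ) (lf i)).hasFDerivAt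
  have h2 : HasFDerivAt (fun x : Fin (n + n) → ℝ => x (rt i))
      (ContinuousLinearMap.proj (R := ℝ) (φ := fun _ => ℝ) (rt i)) x :=
    (ContinuousLinearMap.proj (R := ℝ) (φ := fun _ : Fin (n + n) => ℝ) (rt i)).hasFDerivAt
  exact ((h1.const_mul (Real.cos θ)).add (h2.const_mul (Real.sin θ))).sub_const _

lemma hasFDerivAt_ee (i : Fin n) (θ : ℝ) (x : Fin (n + n) → ℝ) :
    HasFDerivAt (ee C C' p i θ) (ee C C' p i θ x • ll i θ) x := by
  have h := ((hasFDerivAt_ww (C := C) (C' := C') i θ x).exp).const_mul (p i)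
  rw [smul_smul] at h
  exact h

lemma hasFDerivAt_ZZ (θ : ℝ) (x : Fin (n + n) → ℝ) :
    HasFDerivAt (ZZ C C' p θ) (∑ i, ee C C' p i θ x • ll i θ) x := by
  have h : HasFDerivAt (∑ i, ee C C' p i θ) (∑ i, ee C C' p i θ x • ll i θ) x :=
    HasFDerivAt.sum fun i _ => hasFDerivAt_ee i θ x
  convert h using 1
  funext y
  simp [ZZ]

lemma fderiv_GG (hp : ∀ i, 0 ≤ p i) (hp' : ∃ i, 0 < p i) (i : Fin n) (θ : ℝ)
    (x : Fin (n + n) → ℝ) (v : Fin (n + n) → ℝ) :
    fderiv ℝ (GG C C' p q i θ) x v =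
      ∑ m, RR C C' p q i m θ x * ll m θ v + GG C C' p q i θ x * ll i θ v := by
  have hZ := ZZ_pos (C := C) (C' := C') hp hp' θ x
  have h1 := ((hasFDerivAt_ZZ (C := C) (C' := C') (p := p) θ x).rpow_const
    (p := q - 1) (Or.inl hZ.ne')).const_mul q
  have h2 := h1.mul (hasFDerivAt_ee (C := C) (C' := C') (p := p) i θ x)
  have h3 : fderiv ℝ (GG C C' p q i θ) x = _ := HasFDerivAt.fderiv h2
  rw [h3]
  simp only [ContinuousLinearMap.add_apply, ContinuousLinearMap.smul_apply, smul_eq_mul,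
    ContinuousLinearMap.sum_apply, RR, GG]
  rw [show q - 1 - 1 = q - 2 by ring]
  simp only [Finset.mul_sum]
  rw [add_comm]
  congr 1
  · refine Finset.sum_congr rfl fun m _ => ?_
    ring
  · ring

lemma abs_ll_le (m : Fin n) (k : Fin (n + n)) (θ : ℝ) : |ll m θ (Pi.single k 1)| ≤ 2 := by
  have h1 : ll m θ (Pi.single k 1) = Real.cos θ * (Pi.single k 1 : Fin (n + n) → ℝ) (lf m)
      + Real.sin θ * (Pi.single k 1 : Fin (n + n) → ℝ) (rt m) := rfl
  have h2 : ∀ j, |(Pi.single k 1 : Fin (n + n) → ℝ) j| ≤ 1 := by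
    intro j
    rw [Pi.single_apply]
    split_ifs <;> simp
  rw [h1]
  refine (abs_add_le _ _).trans ?_
  rw [abs_mul, abs_mul]
  have h3 := mul_le_mul (Real.abs_cos_le_one θ) (h2 (lf m)) (abs_nonneg _) zero_le_one
  have h4 := mul_le_mul (Real.abs_sin_le_one θ) (h2 (rt m)) (abs_nonneg _) zero_le_one
  linarith

lemma Gr.abs {N : ℕ} {f : ℝ → (Fin N → ℝ) → ℝ} (h : Gr f) : Gr (fun θ x => |f θ x|) := by
  obtain ⟨K, hK, h'⟩ := h
  exact ⟨K, hK, fun θ x => by rw [abs_abs]; exact h' θ x⟩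

lemma growth_GG (hp : ∀ i, 0 ≤ p i) (hp' : ∃ i, 0 < p i) (i : Fin n) (θ : ℝ) :
    ∃ K : ℝ, ∀ x : Fin (n + n) → ℝ, |GG C C' p q i θ x| ≤ K * Real.exp (K * ∑ i, |x i|) ∧
    ‖fderiv ℝ (GG C C' p q i θ) x‖ ≤ K * Real.exp (K * ∑ i, |x i|) := by
  have h1 : Gr (fun θ (x : Fin (n + n) → ℝ) => ∑ k, |∑ m, RR C C' p q i m θ x *
      ll m θ (Pi.single k 1) + GG C C' p q i θ x * ll i θ (Pi.single k 1)|) := by
    refine Gr_sum _ fun k _ => Gr.abs (Gr.add (Gr_sum _ fun m _ => ?_) ?_)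
    · exact (Gr_RR hp hp' i m).mul (Gr_bdd (B := 2) fun θ => abs_ll_le m k θ)
    · exact (Gr_GG hp hp' i).mul (Gr_bdd (B := 2) fun θ => abs_ll_le i k θ)
  obtain ⟨K, hK, h2⟩ := (Gr_GG (C := C) (C' := C') (q := q) hp hp' i).abs.add h1
  refine ⟨K, fun x => ?_⟩
  have h3 := h2 θ x
  have h4 : ‖fderiv ℝ (GG C C' p q i θ) x‖ ≤ ∑ k, |∑ m, RR C C' p q i m θ x *
      ll m θ (Pi.single k 1) + GG C C' p q i θ x * ll i θ (Pi.single k 1)| := by
    refine (norm_le_sum_single _).trans (le_of_eq (Finset.sum_congr rfl fun k _ => ?_))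
    rw [fderiv_GG hp hp']
  have h5 : 0 ≤ ∑ k, |∑ m, RR C C' p q i m θ x *
      ll m θ (Pi.single k 1) + GG C C' p q i θ x * ll i θ (Pi.single k 1)| :=
    Finset.sum_nonneg fun _ _ => abs_nonneg _
  have h6 := abs_nonneg (GG C C' p q i θ x)
  rw [abs_of_nonneg (add_nonneg h6 h5)] at h3
  exact ⟨by linarith, by linarith⟩

/-! ### the derivative in the parameter -/

lemma hasDerivAt_ww (i : Fin n) (θ : ℝ) (x : Fin (n + n) → ℝ) :
    HasDerivAt (fun θ => ww C C' i θ x) (dw C C' i θ x) θ := by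
  have h1 := (Real.hasDerivAt_cos θ).mul_const (x (lf i))
  have h2 := (Real.hasDerivAt_sin θ).mul_const (x (rt i))
  have h3 := ((Real.hasDerivAt_cos θ).pow 2).mul_const (C i i)
  have h4 := ((Real.hasDerivAt_sin θ).pow 2).mul_const (C' i i)
  have h5 := (h1.add h2).sub ((h3.add h4).div_const 2)
  refine HasDerivAt.congr_deriv (f := fun θ => ww C C' i θ x) h5 ?_
  unfold dw
  simp only [Nat.cast_ofNat]
  ring

lemma hasDerivAt_ZZ_rpow (hp : ∀ i, 0 ≤ p i) (hp' : ∃ i, 0 < p i) (θ : ℝ)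
    (x : Fin (n + n) → ℝ) :
    HasDerivAt (fun θ => ZZ C C' p θ x ^ q) (∑ i, GG C C' p q i θ x * dw C C' i θ x) θ := by
  have h1 : HasDerivAt (fun θ => ZZ C C' p θ x) (∑ i, p i * (Real.exp (ww C C' i θ x)
      * dw C C' i θ x)) θ := by
    have h : HasDerivAt (∑ i, fun θ => ee C C' p i θ x) (∑ i, p i * (Real.exp (ww C C' i θ x)
      * dw C C' i θ x)) θ :=
      HasDerivAt.sum fun i _ => ((hasDerivAt_ww (C := C) (C' := C') i θ x).exp).const_mul (p i)
    convert h using 1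
    funext y
    simp [ZZ]
  have h2 := h1.rpow_const (p := q) (Or.inl (ZZ_pos hp hp' θ x).ne')
  convert h2 using 1
  rw [Finset.sum_mul, Finset.sum_mul]
  refine Finset.sum_congr rfl fun i _ => ?_
  rw [GG, ee]
  ring

section main

variable (ν : Measure (EuclideanSpace ℝ (Fin (n + n)))) [IsGaussian ν]

lemma int_GG (hp : ∀ i, 0 ≤ p i) (hp' : ∃ i, 0 < p i) (i : Fin n) (θ : ℝ) :
    Integrable (fun x : EuclideanSpace ℝ (Fin (n + n)) => GG C C' p q i θ (fun k => x k)) ν :=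
  (Gr_GG hp hp' i).integrable ν θ (contDiff_GG hp hp' i θ).continuous

lemma int_RR (hp : ∀ i, 0 ≤ p i) (hp' : ∃ i, 0 < p i) (i m : Fin n) (θ : ℝ) :
    Integrable (fun x : EuclideanSpace ℝ (Fin (n + n)) => RR C C' p q i m θ (fun k => x k)) ν :=
  (Gr_RR hp hp' i m).integrable ν θ (contDiff_RR hp hp' i m θ).continuous

lemma int_xGG (hp : ∀ i, 0 ≤ p i) (hp' : ∃ i, 0 < p i) (i : Fin n) (k : Fin (n + n)) (θ : ℝ) :
    Integrable (fun x : EuclideanSpace ℝ (Fin (n + n)) => x k * GG C C' p q i θ (fun k => x k)) ν :=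
  Gr.integrable (f := fun θ x => x k * GG C C' p q i θ x) ((Gr_coord k).mul (Gr_GG hp hp' i)) ν θ
    ((continuous_apply k).mul (contDiff_GG hp hp' i θ).continuous)

lemma hasDerivAt_phi (hp : ∀ i, 0 ≤ p i) (hp' : ∃ i, 0 < p i) (θ : ℝ) :
    HasDerivAt (fun θ => ∫ x, ZZ C C' p θ (fun k => x k) ^ q ∂ν)
      (∑ i, ∫ x, GG C C' p q i θ (fun k => x k) * dw C C' i θ (fun k => x k) ∂ν) θ := by
  have hG : Gr (fun θ x => ∑ i, GG C C' p q i θ x * dw C C' i θ x) :=
    Gr_sum _ fun i _ => (Gr_GG hp hp' i).mul (Gr_dw i)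
  obtain ⟨K, hK, hb⟩ := hG
  have h := hasDerivAt_integral_of_dominated_loc_of_deriv_le (μ := ν) (s := univ) (x₀ := θ)
    (F := fun θ (x : EuclideanSpace ℝ (Fin (n + n))) => ZZ C C' p θ (fun k => x k) ^ q)
    (F' := fun θ (x : EuclideanSpace ℝ (Fin (n + n))) =>
      ∑ i, GG C C' p q i θ (fun k => x k) * dw C C' i θ (fun k => x k))
    (bound := fun x => K * Real.exp (K * ∑ i, |x i|)) univ_mem
    (Eventually.of_forall fun θ => ((Gr_ZZ_rpow hp hp' q).integrable ν θ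
      (contDiff_ZZ_rpow hp hp' q θ).continuous).aestronglyMeasurable)
    ((Gr_ZZ_rpow hp hp' q).integrable ν θ (contDiff_ZZ_rpow hp hp' q θ).continuous)
    (Continuous.aestronglyMeasurable (continuous_finsetSum _ fun i _ =>
      ((contDiff_GG hp hp' i θ).continuous.comp (by fun_prop)).mul
        ((contDiff_dw i θ).continuous.comp (by fun_prop))))
    (Eventually.of_forall fun x θ _ => hb θ _)
    ((integrable_exp_sum ν K hK).const_mul K)
    (Eventually.of_forall fun x θ _ => hasDerivAt_ZZ_rpow hp hp' θ _)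
  have h2 := h.2
  rw [integral_finsetSum] at h2
  · exact h2
  · intro i _
    exact Gr.integrable (f := fun θ x => GG C C' p q i θ x * dw C C' i θ x)
      ((Gr_GG hp hp' i).mul (Gr_dw i)) ν θ
      ((contDiff_GG hp hp' i θ).continuous.mul (contDiff_dw i θ).continuous)

lemma int_fderiv_lf (hp : ∀ i, 0 ≤ p i) (hp' : ∃ i, 0 < p i) (i m : Fin n) (θ : ℝ) :
    ∫ x : EuclideanSpace ℝ (Fin (n + n)),
      fderiv ℝ (GG C C' p q i θ) (fun k => x k) (Pi.single (lf m) 1) ∂ν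
    = Real.cos θ * (∫ x, RR C C' p q i m θ (fun k => x k) ∂ν
      + (if i = m then 1 else 0) * ∫ x, GG C C' p q i θ (fun k => x k) ∂ν) := by
  have h1 : ∀ x : EuclideanSpace ℝ (Fin (n + n)),
      fderiv ℝ (GG C C' p q i θ) (fun k => x k) (Pi.single (lf m) 1)
      = Real.cos θ * (RR C C' p q i m θ (fun k => x k)
        + (if i = m then 1 else 0) * GG C C' p q i θ (fun k => x k)) := by
    intro x
    rw [fderiv_GG hp hp', ll_lf]
    have : ∀ j, RR C C' p q i j θ (fun k => x k) * ll j θ (Pi.single (lf m) 1)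
        = if j = m then RR C C' p q i j θ (fun k => x k) * Real.cos θ else 0 := by
      intro j
      rw [ll_lf]
      split_ifs <;> ring
    simp only [this, Finset.sum_ite_eq', Finset.mem_univ, if_true]
    ring
  simp only [h1]
  rw [integral_const_mul, integral_add (int_RR ν hp hp' i m θ)
    ((int_GG ν hp hp' i θ).const_mul _), integral_const_mul]

lemma int_fderiv_rt (hp : ∀ i, 0 ≤ p i) (hp' : ∃ i, 0 < p i) (i m : Fin n) (θ : ℝ) :
    ∫ x : EuclideanSpace ℝ (Fin (n + n)),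
      fderiv ℝ (GG C C' p q i θ) (fun k => x k) (Pi.single (rt m) 1) ∂ν
    = Real.sin θ * (∫ x, RR C C' p q i m θ (fun k => x k) ∂ν
      + (if i = m then 1 else 0) * ∫ x, GG C C' p q i θ (fun k => x k) ∂ν) := by
  have h1 : ∀ x : EuclideanSpace ℝ (Fin (n + n)),
      fderiv ℝ (GG C C' p q i θ) (fun k => x k) (Pi.single (rt m) 1)
      = Real.sin θ * (RR C C' p q i m θ (fun k => x k)
        + (if i = m then 1 else 0) * GG C C' p q i θ (fun k => x k)) := by
    intro x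
    rw [fderiv_GG hp hp', ll_rt]
    have : ∀ j, RR C C' p q i j θ (fun k => x k) * ll j θ (Pi.single (rt m) 1)
        = if j = m then RR C C' p q i j θ (fun k => x k) * Real.sin θ else 0 := by
      intro j
      rw [ll_rt]
      split_ifs <;> ring
    simp only [this, Finset.sum_ite_eq', Finset.mem_univ, if_true]
    ring
  simp only [h1]
  rw [integral_const_mul, integral_add (int_RR ν hp hp' i m θ)
    ((int_GG ν hp hp' i θ).const_mul _), integral_const_mul]

end main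

lemma phi_deriv (hS : St_STEIN) (hC : C.PosSemidef) (hC' : C'.PosSemidef)
    (hp : ∀ i, 0 ≤ p i) (hp' : ∃ i, 0 < p i) (θ : ℝ) :
    HasDerivAt (fun θ => ∫ x, ZZ C C' p θ (fun k => x k) ^ q ∂(multivariateGaussian 0 (blk C C')))
      (Real.sin θ * Real.cos θ * ∑ i, ∑ m, (C' i m - C i m) *
        ∫ x, RR C C' p q i m θ (fun k => x k) ∂(multivariateGaussian 0 (blk C C'))) θ := by
  set ν : Measure (EuclideanSpace ℝ (Fin (n + n))) := multivariateGaussian 0 (blk C C') with hν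
  have h := hasDerivAt_phi (C := C) (C' := C') (q := q) ν hp hp' θ
  convert h using 1
  rw [Finset.mul_sum]
  refine Finset.sum_congr rfl fun i _ => ?_
  have s1 := hS (n + n) (blk C C') (blk_posSemidef C C' hC hC') (GG C C' p q i θ)
    (contDiff_GG hp hp' i θ) (growth_GG hp hp' i θ) (lf i)
  have s2 := hS (n + n) (blk C C') (blk_posSemidef C C' hC hC') (GG C C' p q i θ)
    (contDiff_GG hp hp' i θ) (growth_GG hp hp' i θ) (rt i)
  rw [← hν, sum_lr] at s1 s2
  simp only [blk_ll, blk_lr, blk_rl, blk_rr, zero_mul, Finset.sum_const_zero, add_zero,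
    zero_add, int_fderiv_lf ν hp hp', int_fderiv_rt ν hp hp'] at s1 s2
  set g := ∫ x, GG C C' p q i θ (fun k => x k) ∂ν with hg
  have e1 : ∀ x : EuclideanSpace ℝ (Fin (n + n)),
      GG C C' p q i θ (fun k => x k) * dw C C' i θ (fun k => x k)
      = (-Real.sin θ) * (x (lf i) * GG C C' p q i θ (fun k => x k))
        + (Real.cos θ * (x (rt i) * GG C C' p q i θ (fun k => x k))
        + (-(Real.sin θ * Real.cos θ * (C' i i - C i i))) * GG C C' p q i θ (fun k => x k)) := by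
    intro x
    rw [dw]
    ring
  simp only [e1]
  have I1 := (int_xGG (C := C) (C' := C') (q := q) ν hp hp' i (lf i) θ).const_mul (-Real.sin θ)
  have I2 := (int_xGG (C := C) (C' := C') (q := q) ν hp hp' i (rt i) θ).const_mul (Real.cos θ)
  have I3 := (int_GG (C := C) (C' := C') (q := q) ν hp hp' i θ).const_mul
    (-(Real.sin θ * Real.cos θ * (C' i i - C i i)))
  have I23 : Integrable (fun x : EuclideanSpace ℝ (Fin (n + n)) =>
      Real.cos θ * (x (rt i) * GG C C' p q i θ (fun k => x k))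
      + (-(Real.sin θ * Real.cos θ * (C' i i - C i i))) * GG C C' p q i θ (fun k => x k)) ν :=
    I2.add I3
  rw [integral_add I1 I23, integral_add I2 I3,
    integral_const_mul, integral_const_mul, integral_const_mul, s1, s2, ← hg]
  have e2 : ∀ (D : Matrix (Fin n) (Fin n) ℝ) (c : ℝ),
      ∑ m, D i m * (c * (∫ x, RR C C' p q i m θ (fun k => x k) ∂ν + (if i = m then 1 else 0) * g))
      = c * ∑ m, D i m * ∫ x, RR C C' p q i m θ (fun k => x k) ∂ν + c * D i i * g := by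
    intro D c
    have : ∀ m, D i m * (c * (∫ x, RR C C' p q i m θ (fun k => x k) ∂ν
        + (if i = m then 1 else 0) * g))
        = c * (D i m * ∫ x, RR C C' p q i m θ (fun k => x k) ∂ν)
          + if i = m then c * D i m * g else 0 := by
      intro m
      split_ifs <;> ring
    simp only [this, Finset.sum_add_distrib, Finset.sum_ite_eq, Finset.mem_univ, if_true,
      Finset.mul_sum]
  rw [e2, e2]
  simp only [sub_mul, Finset.sum_sub_distrib]
  ring

lemma gm_left (hM : St_MARG) (hC : C.PosSemidef) (hC' : C'.PosSemidef)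
    (hp : ∀ i, 0 ≤ p i) (hp' : ∃ i, 0 < p i) :
    gm C p q = ENNReal.ofReal
      (∫ x, ZZ C C' p 0 (fun k => x k) ^ q ∂(multivariateGaussian 0 (blk C C'))) := by
  have h := hM (n + n) n (blk C C') (blk_posSemidef C C' hC hC') lf lf_inj (gl p fun _ => 0)
    (by
      refine cases_lr _ (fun i hi => absurd ⟨i, rfl⟩ hi) (fun i _ => gl_rt _ _ _)) q
  have h1 : (blk C C').submatrix lf lf = C := by
    ext i j; exact blk_ll C C' i j
  have h2 : (fun i => gl p (fun _ => 0) (lf i)) = p := by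
    funext i; exact gl_lf _ _ _
  rw [h1, h2] at h
  rw [← h, gm, ofReal_integral_eq_lintegral_ofReal
    ((Gr_ZZ_rpow hp hp' q).integrable _ _ (contDiff_ZZ_rpow hp hp' q 0).continuous)
    (Eventually.of_forall fun x => Real.rpow_nonneg (ZZ_pos hp hp' _ _).le q)]
  refine lintegral_congr fun x => ?_
  congr 2
  rw [sum_lr]
  simp only [gl_lf, gl_rt, zero_mul, Finset.sum_const_zero, add_zero, ZZ, ee, ww, blk_ll,
    Real.cos_zero, Real.sin_zero, one_mul, one_pow]
  refine Finset.sum_congr rfl fun i _ => ?_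
  congr 2
  ring

lemma gm_right (hM : St_MARG) (hC : C.PosSemidef) (hC' : C'.PosSemidef)
    (hp : ∀ i, 0 ≤ p i) (hp' : ∃ i, 0 < p i) :
    gm C' p q = ENNReal.ofReal (∫ x, ZZ C C' p (Real.pi / 2) (fun k => x k) ^ q
      ∂(multivariateGaussian 0 (blk C C'))) := by
  have h := hM (n + n) n (blk C C') (blk_posSemidef C C' hC hC') rt rt_inj (gl (fun _ => 0) p)
    (by
      refine cases_lr _ (fun i _ => gl_lf _ _ _) (fun i hi => absurd ⟨i, rfl⟩ hi)) q
  have h1 : (blk C C').submatrix rt rt = C' := by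
    ext i j; exact blk_rr C C' i j
  have h2 : (fun i => gl (fun _ => 0) p (rt i)) = p := by
    funext i; exact gl_rt _ _ _
  rw [h1, h2] at h
  rw [← h, gm, ofReal_integral_eq_lintegral_ofReal
    ((Gr_ZZ_rpow hp hp' q).integrable _ _ (contDiff_ZZ_rpow hp hp' q _).continuous)
    (Eventually.of_forall fun x => Real.rpow_nonneg (ZZ_pos hp hp' _ _).le q)]
  refine lintegral_congr fun x => ?_
  congr 2
  rw [sum_lr]
  simp only [gl_lf, gl_rt, zero_mul, Finset.sum_const_zero, zero_add, ZZ, ee, ww, blk_rr,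
    Real.cos_pi_div_two, Real.sin_pi_div_two, one_mul, one_pow]
  refine Finset.sum_congr rfl fun i _ => ?_
  congr 2
  ring

lemma term_sign (hp : ∀ i, 0 ≤ p i) (hp' : ∃ i, 0 < p i)
    (hCC : ∀ i j, 0 < p i → 0 < p j → C i j ≤ C' i j)
    (ν : Measure (EuclideanSpace ℝ (Fin (n + n)))) (i m : Fin n) (θ : ℝ) :
    (0 ≤ q * (q - 1) → 0 ≤ (C' i m - C i m) * ∫ x, RR C C' p q i m θ (fun k => x k) ∂ν) ∧
    (q * (q - 1) ≤ 0 → (C' i m - C i m) * ∫ x, RR C C' p q i m θ (fun k => x k) ∂ν ≤ 0) := by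
  by_cases hi : 0 < p i
  · by_cases hm : 0 < p m
    · have h1 := sub_nonneg.mpr (hCC i m hi hm)
      have h2 : ∀ x, 0 ≤ ZZ C C' p θ x ^ (q - 2) * ee C C' p i θ x * ee C C' p m θ x := fun x =>
        mul_nonneg (mul_nonneg (Real.rpow_nonneg (ZZ_pos hp hp' θ x).le _) (ee_nonneg hp i θ x))
          (ee_nonneg hp m θ x)
      have h3 : ∀ x, RR C C' p q i m θ x
          = (q * (q - 1)) * (ZZ C C' p θ x ^ (q - 2) * ee C C' p i θ x * ee C C' p m θ x) := by
        intro x; rw [RR]; ring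
      refine ⟨fun hq => mul_nonneg h1 (integral_nonneg fun x => ?_), fun hq =>
        mul_nonpos_of_nonneg_of_nonpos h1 (integral_nonpos fun x => ?_)⟩
      · rw [h3]; exact mul_nonneg hq (h2 _)
      · rw [h3]; exact mul_nonpos_of_nonpos_of_nonneg hq (h2 _)
    · have h0 : p m = 0 := le_antisymm (not_lt.mp hm) (hp m)
      have h1 : ∀ x, RR C C' p q i m θ x = 0 := fun x => by
        rw [RR, show ee C C' p m θ x = 0 by rw [ee, h0, zero_mul], mul_zero]
      simp only [h1, integral_zero, mul_zero, le_refl, implies_true, and_self]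
  · have h0 : p i = 0 := le_antisymm (not_lt.mp hi) (hp i)
    have h1 : ∀ x, RR C C' p q i m θ x = 0 := fun x => by
      rw [RR, show ee C C' p i θ x = 0 by rw [ee, h0, zero_mul], mul_zero, zero_mul]
    simp only [h1, integral_zero, mul_zero, le_refl, implies_true, and_self]

/-- **Kahane's inequality.** -/
theorem KAH_holds (hS : St_STEIN) (hM : St_MARG) : St_KAH := by
  intro n C C' hC hC' p hp hp' hCC q
  rw [gm_left (C := C) (C' := C') hM hC hC' hp hp', gm_right (C := C) (C' := C') hM hC hC' hp hp']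
  set ν : Measure (EuclideanSpace ℝ (Fin (n + n))) := multivariateGaussian 0 (blk C C') with hν
  set φ : ℝ → ℝ := fun θ => ∫ x, ZZ C C' p θ (fun k => x k) ^ q ∂ν with hφ
  have hd := fun θ => phi_deriv (q := q) hS hC hC' hp hp' θ
  have hdiff : Differentiable ℝ φ := fun θ => (hd θ).differentiableAt
  have hpi : (0 : ℝ) ≤ Real.pi / 2 := by positivity
  have hsc : ∀ θ ∈ interior (Icc (0 : ℝ) (Real.pi / 2)), 0 ≤ Real.sin θ * Real.cos θ := by
    intro θ hθ
    rw [interior_Icc] at hθ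
    exact mul_nonneg (Real.sin_nonneg_of_nonneg_of_le_pi hθ.1.le (by linarith [hθ.2, Real.pi_pos]))
      (Real.cos_nonneg_of_neg_pi_div_two_le_of_le (by linarith [hθ.1]) hθ.2.le)
  refine ⟨fun hq => ENNReal.ofReal_le_ofReal ?_, fun hq0 hq1 => ENNReal.ofReal_le_ofReal ?_⟩
  · have hqq : 0 ≤ q * (q - 1) := by
      rcases hq with h | h
      · exact mul_nonneg (by linarith) (by linarith)
      · exact mul_nonneg_of_nonpos_of_nonpos h (by linarith)
    have hmono : MonotoneOn φ (Icc 0 (Real.pi / 2)) := by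
      refine monotoneOn_of_deriv_nonneg (convex_Icc _ _) hdiff.continuous.continuousOn
        hdiff.differentiableOn fun θ hθ => ?_
      rw [(hd θ).deriv]
      exact mul_nonneg (hsc θ hθ) (Finset.sum_nonneg fun i _ => Finset.sum_nonneg fun m _ =>
        (term_sign hp hp' hCC _ i m θ).1 hqq)
    exact hmono (left_mem_Icc.mpr hpi) (right_mem_Icc.mpr hpi) hpi
  · have hqq : q * (q - 1) ≤ 0 := mul_nonpos_of_nonneg_of_nonpos hq0 (by linarith)
    have hanti : AntitoneOn φ (Icc 0 (Real.pi / 2)) := by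
      refine antitoneOn_of_deriv_nonpos (convex_Icc _ _) hdiff.continuous.continuousOn
        hdiff.differentiableOn fun θ hθ => ?_
      rw [(hd θ).deriv]
      exact mul_nonpos_of_nonneg_of_nonpos (hsc θ hθ) (Finset.sum_nonpos fun i _ =>
        Finset.sum_nonpos fun m _ => (term_sign hp hp' hCC _ i m θ).2 hqq)
    exact hanti (left_mem_Icc.mpr hpi) (right_mem_Icc.mpr hpi) hpi

end

end Pool.Agent.L5helper1.CG
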